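import Pool.Agent.Helper99.GL.FSpec

/-!
Swarm `GL` (MP_a31c1c_an): part F23, spreading of `away from the line at infinity` over `Om`.
-/

set_option autoImplicit false

open Metric Set Filter Topology

namespace Pool.GL.Helper12

lemma om_open (I : Inf) : IsOpen I.Om := by
  have : Continuous fun s : ℂ => (I.b 0).eval s := (I.b 0).continuous
  exact isOpen_ne_fun this continuous_const

lemma om_preconnected (I : Inf) (h : I.b 0 ≠ 0) : IsPreconnected I.Om := by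
  have hf : ({s : ℂ | (I.b 0).eval s = 0}).Finite := by
    have := (I.b 0).roots.toFinset.finite_toSet
    refine this.subset ?_
    intro s hs
    simp only [Finset.mem_coe, Multiset.mem_toFinset]
    exact (Polynomial.mem_roots h).mpr hs
  have h1 : I.Om = ({s : ℂ | (I.b 0).eval s = 0})ᶜ := by
    ext s
    simp [Inf.Om]
  rw [h1]
  have hr : 1 < Module.rank ℝ ℂ := by
    rw [Complex.rank_real_complex]
    norm_num
  exact (hf.countable.isPathConnected_compl_of_one_lt_rank hr).isConnected.isPreconnected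

/-- `aff s z` is not on the leaf for small `z`. -/
def Aw (F : Fld) (p : ℂ × ℂ) (s : ℂ) (δ : ℝ) : Prop := ∀ z : ℂ, 0 < ‖z‖ → ‖z‖ < δ → ¬ F.Lf p (aff s z)

lemma local_step (hLOC : S_LOC) (hLK : S_LK) (F : Fld) (hP : F.P.totalDegree ≤ F.d)
    (hQ : F.Q.totalDegree ≤ F.d) (p : ℂ × ℂ) (a : ℂ) (ha : a ∈ F.inf.Om) :
    ∃ η > 0, ball a η ⊆ F.inf.Om ∧ ∀ s ∈ ball a η, ∀ δ₁ > 0, Aw F p s δ₁ →
      ∃ δ₂ > 0, ∀ s' ∈ ball a η, Aw F p s' δ₂ := by
  obtain ⟨r, hr, hrO⟩ := Metric.isOpen_iff.mp (om_open F.inf) a ha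
  have hK : closedBall a (r / 2) ⊆ F.inf.Om :=
    (closedBall_subset_ball (by linarith)).trans hrO
  obtain ⟨η₀, hη₀, δ₀, hδ₀, hloc⟩ := hLOC F.inf (closedBall a (r / 2)) (isCompact_closedBall _ _) hK
  refine ⟨min (r / 2) (η₀ / 2), by positivity, ?_, ?_⟩
  · exact (ball_subset_closedBall.trans (closedBall_subset_closedBall (min_le_left _ _))).trans hK
  intro s hs δ₁ hδ₁ hA
  refine ⟨min δ₀ (δ₁ / 2), by positivity, ?_⟩
  intro s' hs' z hz0 hz hcon
  have hs'K : s' ∈ closedBall a (r / 2) :=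
    ball_subset_closedBall.trans (closedBall_subset_closedBall (min_le_left _ _)) hs'
  obtain ⟨ζ, hζ⟩ := hloc s' hs'K
  have hzδ : ‖z‖ < δ₀ := hz.trans_le (min_le_left _ _)
  have hzδ1 : ‖z‖ < δ₁ / 2 := hz.trans_le (min_le_right _ _)
  have hsb : s ∈ ball s' η₀ := by
    rw [mem_ball] at hs hs' ⊢
    have h1 : dist s a < η₀ / 2 := hs.trans_le (min_le_right _ _)
    have h2 : dist s' a < η₀ / 2 := hs'.trans_le (min_le_right _ _)
    calc dist s s' ≤ dist s a + dist s' a := dist_triangle_right _ _ _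
      _ < η₀ := by linarith
  have hne : ∀ t ∈ ball s' η₀, ζ t z ≠ 0 := by
    intro t ht h0
    have := (hζ.size t ht z hzδ).1
    rw [h0, norm_zero] at this
    linarith
  have hl := hLK F hP hQ (ball s' η₀) isOpen_ball (convex_ball _ _) (fun t => ζ t z)
    (hζ.sol z hzδ) hne s' (mem_ball_self hη₀) s hsb
  simp only [hζ.init z hzδ] at hl
  have hsz := hζ.size s hsb z hzδ
  exact hA (ζ s z) (by linarith [hsz.1]) (by linarith [hsz.2]) (hcon.trans hl)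

/-- F23 -/
theorem lift (hLOC : S_LOC) (hLK : S_LK) : S_LIFT := by
  intro F hF s₀ hs₀ ε hε p _hp h0
  have hb0 : F.inf.b 0 ≠ 0 := by
    intro h
    have := hF.lead
    rw [h] at this
    simp at this
  have hpre := om_preconnected F.inf hb0
  set U : Set ℂ := {s | s ∈ F.inf.Om ∧ ∃ δ > 0, Aw F p s δ} with hU
  have hstep := fun a ha => local_step hLOC hLK F hF.degP hF.degQ p a ha
  have hUo : IsOpen U := by
    rw [Metric.isOpen_iff]
    rintro a ⟨ha, δ, hδ, hA⟩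
    obtain ⟨η, hη, hηO, hη2⟩ := hstep a ha
    refine ⟨η, hη, ?_⟩
    obtain ⟨δ₂, hδ₂, h2⟩ := hη2 a (mem_ball_self hη) δ hδ hA
    intro s' hs'
    exact ⟨hηO hs', δ₂, hδ₂, h2 s' hs'⟩
  have hsub : F.inf.Om ⊆ U := by
    refine hpre.subset_of_closure_inter_subset hUo ⟨s₀, hs₀, hs₀, ε, hε, h0⟩ ?_
    rintro a ⟨hac, ha⟩
    obtain ⟨η, hη, hηO, hη2⟩ := hstep a ha
    obtain ⟨s, hsU, hsd⟩ := Metric.mem_closure_iff.mp hac η hη
    obtain ⟨_, δ, hδ, hA⟩ := hsU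
    have hsb : s ∈ ball a η := by rw [mem_ball, dist_comm]; exact hsd
    obtain ⟨δ₂, hδ₂, h2⟩ := hη2 s hsb δ hδ hA
    exact ⟨ha, δ₂, hδ₂, h2 a (mem_ball_self hη)⟩
  intro K hK hKO
  refine hK.induction_on (p := fun K' => ∃ δ > 0, ∀ s ∈ K', ∀ z : ℂ, 0 < ‖z‖ → ‖z‖ < δ →
      ¬ F.Lf p (aff s z)) ?_ ?_ ?_ ?_
  · exact ⟨1, one_pos, fun s hs => absurd hs (Set.notMem_empty s)⟩
  · rintro s t hst ⟨δ, hδ, h⟩
    exact ⟨δ, hδ, fun x hx => h x (hst hx)⟩
  · rintro s t ⟨δ, hδ, h⟩ ⟨δ', hδ', h'⟩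
    refine ⟨min δ δ', lt_min hδ hδ', ?_⟩
    rintro x (hx | hx) z hz0 hz
    · exact h x hx z hz0 (hz.trans_le (min_le_left _ _))
    · exact h' x hx z hz0 (hz.trans_le (min_le_right _ _))
  · intro a haK
    obtain ⟨ha, δ, hδ, hA⟩ := hsub (hKO haK)
    obtain ⟨η, hη, hηO, hη2⟩ := hstep a ha
    obtain ⟨δ₂, hδ₂, h2⟩ := hη2 a (mem_ball_self hη) δ hδ hA
    exact ⟨ball a η, mem_nhdsWithin_of_mem_nhds (ball_mem_nhds a hη), δ₂, hδ₂,
      fun s hs z hz0 hz => h2 s hs z hz0 hz⟩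

end Pool.GL.Helper12
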