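import Pool.Agent.Helper99.GL.FSpec

/-!
Swarm `GL` (MP_a31c1c_an): part F24, the direction `s = ∞`.
-/

set_option autoImplicit false

open Metric Set Filter Topology

namespace Pool.GL.Helper12

/-- the field in the coordinates `(y, x)` -/
noncomputable def swp (F : Fld) : Fld where
  d := F.d
  P := MvPolynomial.rename (Equiv.swap (0 : Fin 2) 1) F.Q
  Q := MvPolynomial.rename (Equiv.swap (0 : Fin 2) 1) F.P

lemma vec_swap (x y : ℂ) : (![y, x] : Fin 2 → ℂ) ∘ (Equiv.swap (0 : Fin 2) 1) = ![x, y] := by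
  ext i
  fin_cases i <;> simp

lemma swp_W (F : Fld) (q : ℂ × ℂ) : (swp F).W q.swap = (F.W q).swap := by
  unfold Fld.W swp
  simp only [MvPolynomial.eval_rename, Prod.fst_swap, Prod.snd_swap, vec_swap, Prod.swap_prod_mk]

lemma swp_step (F : Fld) {x y : ℂ × ℂ} (h : F.Step x y) : (swp F).Step x.swap y.swap := by
  obtain ⟨φ, r, hr, hφ, h0, t, ht, hy⟩ := h
  refine ⟨fun t => (φ t).swap, r, hr, ?_, by simp [h0], t, ht, by simp [hy]⟩
  intro t ht
  have h1 := hφ t ht
  have h2 : HasDerivAt (fun t => (φ t).2) (F.W (φ t)).2 t := h1.snd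
  have h3 : HasDerivAt (fun t => (φ t).1) (F.W (φ t)).1 t := h1.fst
  have h4 := h2.prodMk h3
  have e : (swp F).W (φ t).swap = ((F.W (φ t)).2, (F.W (φ t)).1) := by rw [swp_W]; rfl
  rw [e]
  exact h4

lemma swp_lf (F : Fld) {x y : ℂ × ℂ} (h : F.Lf x y) : (swp F).Lf x.swap y.swap := by
  induction h with
  | refl => exact Relation.ReflTransGen.refl
  | tail _ hs ih => exact Relation.ReflTransGen.tail ih (swp_step F hs)

lemma swp_swp (F : Fld) : swp (swp F) = F := by
  have h : ∀ P : MvPolynomial (Fin 2) ℂ,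
      MvPolynomial.rename (Equiv.swap (0 : Fin 2) 1)
        (MvPolynomial.rename (Equiv.swap (0 : Fin 2) 1) P) = P := by
    intro P
    rw [MvPolynomial.rename_rename]
    have : ((Equiv.swap (0 : Fin 2) 1 : Fin 2 → Fin 2) ∘ (Equiv.swap (0 : Fin 2) 1)) = id := by
      ext i; simp
    rw [this, MvPolynomial.rename_id]
    rfl
  cases F
  simp only [swp, h]

lemma swp_lf_iff (F : Fld) (x y : ℂ × ℂ) : (swp F).Lf x.swap y.swap ↔ F.Lf x y := by
  constructor
  · intro h
    have := swp_lf (swp F) h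
    rwa [swp_swp, Prod.swap_swap, Prod.swap_swap] at this
  · exact swp_lf F

lemma eval_aeval (H : MvPolynomial (Fin 2) ℂ) (s : ℂ) :
    (MvPolynomial.aeval ![(1 : Polynomial ℂ), Polynomial.X] H).eval s =
      MvPolynomial.eval ![1, s] H := by
  induction H using MvPolynomial.induction_on with
  | C a => simp
  | add p q hp hq => simp [hp, hq]
  | mul_X p i hp =>
    rw [map_mul, Polynomial.eval_mul, hp, map_mul]
    congr 1
    fin_cases i <;> simp

lemma coeff_aeval (H : MvPolynomial (Fin 2) ℂ) (n : ℕ) (hH : H.IsHomogeneous n) :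
    (MvPolynomial.aeval ![(1 : Polynomial ℂ), Polynomial.X] H).coeff n =
      MvPolynomial.eval ![0, 1] H := by
  rw [MvPolynomial.aeval_def, MvPolynomial.eval₂_eq', MvPolynomial.eval_eq',
    Polynomial.finsetSum_coeff]
  apply Finset.sum_congr rfl
  intro m hm
  have hm' : MvPolynomial.coeff m H ≠ 0 := MvPolynomial.mem_support_iff.mp hm
  have hdeg := hH hm'
  have hdeg2 : m 0 + m 1 = n := by
    rw [← hdeg, Finsupp.weight_apply, Finsupp.sum_fintype _ _ (by simp)]
    simp [Fin.sum_univ_two]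
  simp only [Fin.prod_univ_two, Matrix.cons_val_zero, Matrix.cons_val_one, one_pow, one_mul,
    mul_one]
  change (Polynomial.C (MvPolynomial.coeff m H) * Polynomial.X ^ m 1).coeff n = _
  rw [Polynomial.coeff_C_mul, Polynomial.coeff_X_pow]
  by_cases h0 : m 0 = 0
  · have : n = m 1 := by omega
    simp [h0, this]
  · have : n ≠ m 1 := by omega
    simp [h0, this]

lemma natDegree_aeval (H : MvPolynomial (Fin 2) ℂ) (n : ℕ) (hH : H.IsHomogeneous n) :
    (MvPolynomial.aeval ![(1 : Polynomial ℂ), Polynomial.X] H).coeff (n + 1) = 0 := by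
  rw [MvPolynomial.aeval_def, MvPolynomial.eval₂_eq', Polynomial.finsetSum_coeff]
  apply Finset.sum_eq_zero
  intro m hm
  have hm' : MvPolynomial.coeff m H ≠ 0 := MvPolynomial.mem_support_iff.mp hm
  have hdeg := hH hm'
  have hdeg2 : m 0 + m 1 = n := by
    rw [← hdeg, Finsupp.weight_apply, Finsupp.sum_fintype _ _ (by simp)]
    simp [Fin.sum_univ_two]
  simp only [Fin.prod_univ_two, Matrix.cons_val_zero, Matrix.cons_val_one, one_pow, one_mul]
  change (Polynomial.C (MvPolynomial.coeff m H) * Polynomial.X ^ m 1).coeff (n + 1) = _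
  rw [Polynomial.coeff_C_mul, Polynomial.coeff_X_pow]
  have : n + 1 ≠ m 1 := by omega
  simp [this]

lemma swp_zero_mem (F : Fld) (hl : (F.inf.b 0).coeff (F.d + 1) ≠ 0) : (0 : ℂ) ∈ (swp F).inf.Om := by
  change ((swp F).inf.b 0).eval 0 ≠ 0
  have e1 : ((swp F).inf.b 0).eval 0 =
      MvPolynomial.eval ![0, 1] (MvPolynomial.homogeneousComponent F.d F.P) := by
    change (MvPolynomial.aeval ![(1 : Polynomial ℂ), Polynomial.X]
      (MvPolynomial.homogeneousComponent (F.d - 0) (MvPolynomial.rename _ F.P)) -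
      Polynomial.X * _).eval 0 = _
    rw [Polynomial.eval_sub, Polynomial.eval_mul, Polynomial.eval_X, zero_mul, sub_zero,
      Nat.sub_zero, ← MvPolynomial.rename_homogeneousComponent, eval_aeval,
      MvPolynomial.eval_rename, vec_swap]
  have e2 : (F.inf.b 0).coeff (F.d + 1) =
      - MvPolynomial.eval ![0, 1] (MvPolynomial.homogeneousComponent F.d F.P) := by
    change (MvPolynomial.aeval ![(1 : Polynomial ℂ), Polynomial.X]
      (MvPolynomial.homogeneousComponent (F.d - 0) F.Q) -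
      Polynomial.X * MvPolynomial.aeval ![(1 : Polynomial ℂ), Polynomial.X]
      (MvPolynomial.homogeneousComponent (F.d - 0) F.P)).coeff (F.d + 1) = _
    rw [Polynomial.coeff_sub, Polynomial.coeff_X_mul, Nat.sub_zero,
      natDegree_aeval _ _ (MvPolynomial.homogeneousComponent_isHomogeneous _ _),
      coeff_aeval _ _ (MvPolynomial.homogeneousComponent_isHomogeneous _ _), zero_sub]
  rw [e1]
  rw [e2] at hl
  exact neg_ne_zero.mp hl

lemma om_open' (I : Inf) : IsOpen I.Om := by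
  have : Continuous fun s : ℂ => (I.b 0).eval s := (I.b 0).continuous
  exact isOpen_ne_fun this continuous_const

/-- F24 -/
theorem liftinf (hLOC : S_LOC) (hLK : S_LK) : S_LIFTINF := by
  intro F hF p _hp hA
  have h0 : (0 : ℂ) ∈ (swp F).inf.Om := swp_zero_mem F hF.lead
  obtain ⟨r, hr, hrO⟩ := Metric.isOpen_iff.mp (om_open' (swp F).inf) 0 h0
  have hK : closedBall (0 : ℂ) (r / 2) ⊆ (swp F).inf.Om :=
    (closedBall_subset_ball (by linarith)).trans hrO
  obtain ⟨η, hη, δ, hδ, hloc⟩ := hLOC (swp F).inf (closedBall 0 (r / 2)) (isCompact_closedBall _ _) hK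
  -- a regular direction near infinity
  have hb0 : F.inf.b 0 ≠ 0 := by
    intro h
    have := hF.lead
    rw [h] at this
    simp at this
  obtain ⟨s₁, hs₁, hs₁O⟩ : ∃ s₁ : ℂ, 2 / η < ‖s₁‖ ∧ (F.inf.b 0).eval s₁ ≠ 0 := by
    by_contra hcon
    push Not at hcon
    apply hb0
    apply Polynomial.eq_zero_of_infinite_isRoot
    have hinj : Function.Injective (fun n : ℕ => ((2 / η + 1 + n : ℝ) : ℂ)) := by
      intro a b hab
      simp only [Complex.ofReal_inj] at hab
      have : (a : ℝ) = b := by linarith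
      exact_mod_cast this
    refine (Set.infinite_range_of_injective hinj).mono ?_
    rintro _ ⟨n, rfl⟩
    apply hcon
    rw [Complex.norm_real, Real.norm_eq_abs, abs_of_pos (by positivity)]
    have : (0 : ℝ) ≤ n := Nat.cast_nonneg n
    linarith
  have hs₁0 : s₁ ≠ 0 := by
    intro h
    rw [h, norm_zero] at hs₁
    have : 0 < 2 / η := by positivity
    linarith
  have hs₁pos : 0 < ‖s₁‖ := norm_pos_iff.mpr hs₁0
  set v₁ : ℂ := 1 / s₁ with hv₁
  have hv₁0 : v₁ ≠ 0 := by rw [hv₁]; exact one_div_ne_zero hs₁0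
  have hv₁n : ‖v₁‖ < η / 2 := by
    rw [hv₁, norm_div, norm_one, div_lt_iff₀ hs₁pos]
    rw [div_lt_iff₀ hη] at hs₁
    nlinarith
  have hv₁pos : 0 < ‖v₁‖ := norm_pos_iff.mpr hv₁0
  obtain ⟨δA, hδA, hAw⟩ := hA {s₁} isCompact_singleton (by
    intro s hs
    rw [Set.mem_singleton_iff] at hs
    rw [hs]
    exact hs₁O)
  refine ⟨min (min (r / 2) (η / 2)) (min δ (δA * ‖v₁‖ / 2)), by positivity, ?_⟩
  intro v w hv hw0 hw hcon
  have hvr : ‖v‖ < r / 2 := (hv.trans_le (min_le_left _ _)).trans_le (min_le_left _ _)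
  have hvη : ‖v‖ < η / 2 := (hv.trans_le (min_le_left _ _)).trans_le (min_le_right _ _)
  have hwδ : ‖w‖ < δ := (hw.trans_le (min_le_right _ _)).trans_le (min_le_left _ _)
  have hwA : ‖w‖ < δA * ‖v₁‖ / 2 := (hw.trans_le (min_le_right _ _)).trans_le (min_le_right _ _)
  have hvK : v ∈ closedBall (0 : ℂ) (r / 2) := by
    rw [mem_closedBall, dist_zero_right]
    exact hvr.le
  obtain ⟨ζ, hζ⟩ := hloc v hvK
  have hv₁b : v₁ ∈ ball v η := by
    rw [mem_ball]
    calc dist v₁ v ≤ dist v₁ 0 + dist v 0 := dist_triangle_right _ _ _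
      _ = ‖v₁‖ + ‖v‖ := by rw [dist_zero_right, dist_zero_right]
      _ < η := by linarith
  have hne : ∀ t ∈ ball v η, ζ t w ≠ 0 := by
    intro t ht h0
    have := (hζ.size t ht w hwδ).1
    rw [h0, norm_zero] at this
    linarith
  have hdP : (swp F).P.totalDegree ≤ (swp F).d :=
    (MvPolynomial.totalDegree_rename_le _ _).trans hF.degQ
  have hdQ : (swp F).Q.totalDegree ≤ (swp F).d :=
    (MvPolynomial.totalDegree_rename_le _ _).trans hF.degP
  have hl := hLK (swp F) hdP hdQ (ball v η) isOpen_ball (convex_ball _ _) (fun t => ζ t w)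
    (hζ.sol w hwδ) hne v (mem_ball_self hη) v₁ hv₁b
  simp only [hζ.init w hwδ] at hl
  set w₁ := ζ v₁ w with hw₁
  have hsz := hζ.size v₁ hv₁b w hwδ
  have hw₁pos : 0 < ‖w₁‖ := by linarith [hsz.1]
  have hw₁0 : w₁ ≠ 0 := norm_pos_iff.mp hw₁pos
  have hcon' : (swp F).Lf p.swap (aff v w) := by
    have := swp_lf F hcon
    simpa [aff, Prod.swap] using this
  have h1 : (swp F).Lf p.swap (aff v₁ w₁) := hcon'.trans hl
  have e : aff v₁ w₁ = (aff s₁ (w₁ / v₁)).swap := by
    unfold aff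
    rw [Prod.swap_prod_mk, hv₁]
    congr 1
    · field_simp
    · field_simp
  rw [e, swp_lf_iff] at h1
  refine hAw s₁ rfl (w₁ / v₁) ?_ ?_ h1
  · rw [norm_div]
    positivity
  · rw [norm_div, div_lt_iff₀ hv₁pos]
    linarith [hsz.2]

end Pool.GL.Helper12
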